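import Mathlib
import Pool.Agent.T9h20.W.Defs

/-!
# The approximation method for monotone real circuits, abstractly
-/

set_option autoImplicit false
set_option linter.unusedSectionVars false
set_option linter.unusedVariables false

namespace Pool.Agent.T9h18.SC

open Finset
open scoped Classical
open Pool.Agent.T9h20 (FWire FGate FCircuit)

/-- The data of the approximation method. -/
structure Sys (T X W : Type) [Fintype T] [Fintype X] [Fintype W] where
  ok : T → Prop
  R : T → T → Prop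
  rank : T → ℕ
  pos : X → T → Prop
  neg : W → T → Prop
  Cross : T → T → Prop
  t₀ : T
  M : ℕ
  B : ℕ
  ρ : ℕ
  Δ : ℕ
  hB : 1 ≤ B
  refl : ∀ a, R a a
  trans : ∀ a b c, R a b → R b c → R a c
  negR : ∀ w a b, neg w a → R a b → neg w b
  posR : ∀ x a b, pos x a → R a b → pos x b
  ok0 : ok t₀
  pos0 : ∀ x, pos x t₀
  neg0 : ∀ w, neg w t₀
  R0 : ∀ t, R t t₀
  rankM : ∀ t, rank t ≤ M
  rankR : ∀ a b, R a b → ¬ R b a → rank b < rank a
  okR : ∀ a b, ok a → R a b → ok b
  join : ∀ x a b, ok a → ok b → pos x a → pos x b → ¬ Cross a b →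
    ∃ c, ok c ∧ pos x c ∧ R c a ∧ R c b
  cross : ∀ a b, ok a → ok b → Cross a b → (univ.filter (fun x => pos x a ∧ pos x b)).card ≤ ρ
  pluck : ∀ (S : Finset T) (τ : T) (r : ℕ), (∀ t ∈ S, ok t ∧ R t τ ∧ rank t = r) → B < S.card →
    ∃ s, ∃ L ⊆ S, L.Nonempty ∧ R s τ ∧ (∀ t ∈ L, R t s ∧ ¬ R s t) ∧
      (univ.filter (fun w => neg w s ∧ ∀ t ∈ L, ¬ neg w t)).card ≤ Δ

namespace Sys

variable {T X W : Type} [Fintype T] [Fintype X] [Fintype W] (S : Sys T X W)

/-- the negative instances gained by adding the term -/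
noncomputable def err (τ : T) (U : Finset T) : Finset W :=
  univ.filter (fun w => S.neg w τ ∧ ∀ τ' ∈ U, ¬ S.neg w τ')

/-- closed families -/
def Closed (U : Finset T) : Prop := ∀ τ, S.ok τ → (S.err τ U).card ≤ S.Δ → τ ∈ U

/-- the ok terms -/
noncomputable def okset : Finset T := univ.filter S.ok

lemma mem_okset {τ : T} : τ ∈ S.okset ↔ S.ok τ := by
  unfold okset
  simp

lemma closed_okset : S.Closed S.okset := fun τ hτ _ => S.mem_okset.2 hτ

lemma closed_up {U : Finset T} (hU : S.Closed U) {σ τ : T} (hσ : σ ∈ U) (hτ : S.ok τ)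
    (h : S.R τ σ) : τ ∈ U := by
  apply hU τ hτ
  have : S.err τ U = ∅ := by
    unfold err
    apply Finset.filter_false_of_mem
    rintro w _ ⟨h1, h2⟩
    exact h2 σ hσ (S.negR w τ σ h1 h)
  rw [this, Finset.card_empty]
  exact Nat.zero_le _

/-- the closure of a family -/
noncomputable def clo (A : Finset T) : Finset T :=
  univ.filter (fun τ => ∀ U, S.Closed U → A ⊆ U → τ ∈ U)

lemma mem_clo {A : Finset T} {τ : T} : τ ∈ S.clo A ↔ ∀ U, S.Closed U → A ⊆ U → τ ∈ U := by
  unfold clo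
  rw [Finset.mem_filter]
  exact ⟨fun h => h.2, fun h => ⟨Finset.mem_univ _, h⟩⟩

lemma subset_clo {A : Finset T} : A ⊆ S.clo A := fun τ hτ => S.mem_clo.2 fun U _ hA => hA hτ

lemma clo_closed {A : Finset T} : S.Closed (S.clo A) := by
  intro τ hτ hc
  rw [mem_clo]
  intro U hU hA
  apply hU τ hτ
  refine le_trans (Finset.card_le_card ?_) hc
  intro w hw
  unfold err at hw ⊢
  rw [Finset.mem_filter] at hw ⊢
  exact ⟨hw.1, hw.2.1, fun τ' hτ' => hw.2.2 τ' (S.mem_clo.1 hτ' U hU hA)⟩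

lemma clo_mono {A A' : Finset T} (h : A ⊆ A') : S.clo A ⊆ S.clo A' := by
  intro τ hτ
  rw [mem_clo] at hτ ⊢
  exact fun U hU hA => hτ U hU (h.trans hA)

lemma clo_ok {A : Finset T} (hA : ∀ τ ∈ A, S.ok τ) : ∀ τ ∈ S.clo A, S.ok τ := by
  intro τ hτ
  exact S.mem_okset.1 (S.mem_clo.1 hτ _ S.closed_okset fun σ hσ => S.mem_okset.2 (hA σ hσ))

/-- the negative instances gained by passing from one family to another -/
noncomputable def gap (A U : Finset T) : Finset W :=
  univ.filter (fun w => (∃ τ ∈ U, S.neg w τ) ∧ ∀ τ ∈ A, ¬ S.neg w τ)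

lemma mem_gap {A U : Finset T} {w : W} :
    w ∈ S.gap A U ↔ (∃ τ ∈ U, S.neg w τ) ∧ ∀ τ ∈ A, ¬ S.neg w τ := by
  unfold gap
  rw [Finset.mem_filter]
  exact ⟨fun h => h.2, fun h => ⟨Finset.mem_univ _, h⟩⟩

lemma gap_clo (A : Finset T) : (S.gap A (S.clo A)).card ≤ Fintype.card T * S.Δ := by
  obtain ⟨P, hP⟩ : ∃ P : Finset (Finset T), P = univ.filter
    (fun U : Finset T => A ⊆ U ∧ (S.gap A U).card ≤ U.card * S.Δ) := ⟨_, rfl⟩
  have hAP : A ∈ P := by
    rw [hP, Finset.mem_filter]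
    refine ⟨Finset.mem_univ _, Finset.Subset.refl _, ?_⟩
    have : S.gap A A = ∅ := by
      ext w
      rw [mem_gap]
      simp only [Finset.notMem_empty, iff_false, not_and]
      rintro ⟨τ, h1, h2⟩ h3
      exact h3 τ h1 h2
    rw [this, Finset.card_empty]
    exact Nat.zero_le _
  obtain ⟨U, hU, hmax⟩ := Finset.exists_max_image P (fun U => U.card) ⟨A, hAP⟩
  rw [hP, Finset.mem_filter] at hU
  obtain ⟨_, hAU, hgap⟩ := hU
  have hcl : S.Closed U := by
    intro τ hτ hc
    by_contra hn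
    have h1 : insert τ U ∈ P := by
      rw [hP, Finset.mem_filter]
      refine ⟨Finset.mem_univ _, hAU.trans (Finset.subset_insert _ _), ?_⟩
      have h2 : S.gap A (insert τ U) ⊆ S.gap A U ∪ S.err τ U := by
        intro w hw
        rw [mem_gap] at hw
        obtain ⟨⟨σ, hσ, hs⟩, hw2⟩ := hw
        rw [Finset.mem_union, mem_gap]
        by_cases hex : ∃ τ' ∈ U, S.neg w τ'
        · exact Or.inl ⟨hex, hw2⟩
        · right
          push Not at hex
          unfold err
          rw [Finset.mem_filter]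
          refine ⟨Finset.mem_univ _, ?_, hex⟩
          rcases Finset.mem_insert.1 hσ with rfl | h
          · exact hs
          · exact absurd hs (hex σ h)
      refine (Finset.card_le_card h2).trans ((Finset.card_union_le _ _).trans ?_)
      rw [Finset.card_insert_of_notMem hn, add_mul, one_mul]
      exact Nat.add_le_add hgap hc
    have h3 := hmax _ h1
    rw [Finset.card_insert_of_notMem hn] at h3
    omega
  have h4 : S.gap A (S.clo A) ⊆ S.gap A U := by
    intro w hw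
    rw [mem_gap] at hw ⊢
    obtain ⟨⟨σ, hσ, hs⟩, hw2⟩ := hw
    exact ⟨⟨σ, S.mem_clo.1 hσ U hcl hAU, hs⟩, hw2⟩
  refine (Finset.card_le_card h4).trans (hgap.trans ?_)
  exact Nat.mul_le_mul_right _ (Finset.card_le_univ _)

omit [Fintype X] [Fintype W] in
lemma chain_card (A : ℝ → Finset T) (hA : ∀ s t, s ≤ t → A t ⊆ A s) :
    (univ.filter (fun P : Finset T => ∃ t, P = A t)).card ≤ Fintype.card T + 1 := by
  have h1 : Set.InjOn (fun P : Finset T => P.card)
      (univ.filter (fun P : Finset T => ∃ t, P = A t) : Finset (Finset T)) := by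
    intro P hP Q hQ h
    simp only [Finset.coe_filter, Finset.mem_univ, true_and, Set.mem_ofPred_eq] at hP hQ
    obtain ⟨s, rfl⟩ := hP
    obtain ⟨t, rfl⟩ := hQ
    have h' : (A s).card = (A t).card := h
    rcases le_total s t with g | g
    · exact (Finset.eq_of_subset_of_card_le (hA _ _ g) h'.le).symm
    · exact Finset.eq_of_subset_of_card_le (hA _ _ g) h'.ge
  have h2 : ∀ P ∈ univ.filter (fun P : Finset T => ∃ t, P = A t),
      P.card ∈ Finset.range (Fintype.card T + 1) := by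
    intro P _
    rw [Finset.mem_range]
    exact Nat.lt_succ_of_le (Finset.card_le_univ _)
  have h3 := Finset.card_le_card_of_injOn (fun P : Finset T => P.card) h2 h1
  rwa [Finset.card_range] at h3

/-- the negative instances gained by closing all families of a chain -/
noncomputable def cgap (A : ℝ → Finset T) : Finset W :=
  univ.filter (fun w => ∃ t, w ∈ S.gap (A t) (S.clo (A t)))

lemma mem_cgap {A : ℝ → Finset T} {w : W} :
    w ∈ S.cgap A ↔ ∃ t, w ∈ S.gap (A t) (S.clo (A t)) := by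
  unfold cgap
  rw [Finset.mem_filter]
  exact ⟨fun h => h.2, fun h => ⟨Finset.mem_univ _, h⟩⟩

lemma chain_err (A : ℝ → Finset T) (hA : ∀ s t, s ≤ t → A t ⊆ A s) :
    (S.cgap A).card ≤ (Fintype.card T + 1) * (Fintype.card T * S.Δ) := by
  have h1 : S.cgap A ⊆ (univ.filter (fun P : Finset T => ∃ t, P = A t)).biUnion
      (fun P => S.gap P (S.clo P)) := by
    intro w hw
    obtain ⟨t, ht⟩ := S.mem_cgap.1 hw
    rw [Finset.mem_biUnion]
    exact ⟨A t, Finset.mem_filter.2 ⟨Finset.mem_univ _, t, rfl⟩, ht⟩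
  refine (Finset.card_le_card h1).trans ?_
  refine (Finset.card_biUnion_le_card_mul _ _ (Fintype.card T * S.Δ)
    (fun P _ => S.gap_clo P)).trans ?_
  exact Nat.mul_le_mul_right _ (chain_card A hA)

/-! ### First terms -/

/-- the terms below `τ` which are minimal in some family of the chain -/
noncomputable def rf (U : ℝ → Finset T) (τ : T) : Finset T :=
  univ.filter (fun t => S.R t τ ∧ ∃ u, t ∈ U u ∧ ∀ s ∈ U u, S.R s τ → S.R t s → S.R s t)

lemma mem_rf {U : ℝ → Finset T} {τ t : T} :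
    t ∈ S.rf U τ ↔ S.R t τ ∧ ∃ u, t ∈ U u ∧ ∀ s ∈ U u, S.R s τ → S.R t s → S.R s t := by
  unfold rf
  rw [Finset.mem_filter]
  exact ⟨fun h => h.2, fun h => ⟨Finset.mem_univ _, h⟩⟩

section chain

variable {U : ℝ → Finset T} (hok : ∀ t, ∀ τ ∈ U t, S.ok τ) (hcl : ∀ t, S.Closed (U t))
  (han : ∀ s t, s ≤ t → U t ⊆ U s)

include hok hcl han in
lemma rf_level (τ : T) (r : ℕ) : ((S.rf U τ).filter (fun t => S.rank t = r)).card ≤ S.B := by
  by_contra hcon
  push Not at hcon
  obtain ⟨s, L, hL, hLne, hsτ, hLs, hΔ⟩ := S.pluck _ τ r (by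
    intro t ht
    obtain ⟨h1, h2⟩ := Finset.mem_filter.1 ht
    obtain ⟨h3, u, h4, _⟩ := S.mem_rf.1 h1
    exact ⟨hok u t h4, h3, h2⟩) hcon
  have hch : ∀ t ∈ L, ∃ u, t ∈ U u ∧ ∀ s ∈ U u, S.R s τ → S.R t s → S.R s t := by
    intro t ht
    exact (S.mem_rf.1 (Finset.mem_filter.1 (hL ht)).1).2
  choose! g hg hg2 using hch
  obtain ⟨tm, htm, hmax⟩ := Finset.exists_max_image L (fun t => (U (g t)).card) hLne
  have hsub : ∀ t ∈ L, U (g t) ⊆ U (g tm) := by
    intro t ht
    rcases le_total (g t) (g tm) with h | h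
    · have h2 := han _ _ h
      have h3 := Finset.eq_of_subset_of_card_le h2 (hmax t ht)
      rw [h3]
    · exact han _ _ h
  have hs : s ∈ U (g tm) := by
    apply hcl
    · exact S.okR tm s (hok _ _ (hg tm htm)) (hLs tm htm).1
    · refine le_trans (Finset.card_le_card ?_) hΔ
      intro w hw
      unfold err at hw
      rw [Finset.mem_filter] at hw ⊢
      exact ⟨hw.1, hw.2.1, fun t ht => hw.2.2 t (hsub t ht (hg t ht))⟩
  exact (hLs tm htm).2 (hg2 tm htm s hs hsτ (hLs tm htm).1)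

include hok hcl han in
lemma rf_card (τ : T) : (S.rf U τ).card ≤ (S.M + 1) * S.B := by
  have h1 : ∀ t ∈ S.rf U τ, S.rank t ∈ Finset.range (S.M + 1) := fun t _ =>
    Finset.mem_range.2 (Nat.lt_succ_of_le (S.rankM t))
  rw [Finset.card_eq_sum_card_fiberwise h1]
  refine (Finset.sum_le_card_nsmul _ _ S.B fun r _ => S.rf_level hok hcl han τ r).trans ?_
  rw [Finset.card_range, smul_eq_mul]

include hok hcl han in
/-- a family which contains a positive term below `τ` contains a first one -/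
lemma exists_rf {x : X} {u : ℝ} {τ : T} (h : ∃ t ∈ U u, S.pos x t ∧ S.R t τ) :
    ∃ t ∈ S.rf U τ, S.pos x t ∧ t ∈ U u := by
  obtain ⟨Z, hZ⟩ : ∃ Z : Finset (Finset T), Z = Finset.univ.filter
    (fun V => (∃ v, V = U v) ∧ ∃ t ∈ V, S.pos x t ∧ S.R t τ) := ⟨_, rfl⟩
  have hZne : Z.Nonempty := by
    rw [hZ]
    exact ⟨U u, Finset.mem_filter.2 ⟨Finset.mem_univ _, ⟨u, rfl⟩, h⟩⟩
  obtain ⟨V, hV, hmin⟩ := Finset.exists_min_image Z (fun V => V.card) hZne
  rw [hZ] at hV
  obtain ⟨_, ⟨u0, rfl⟩, t0, ht0, hc0⟩ := Finset.mem_filter.1 hV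
  have hsub : U u0 ⊆ U u := by
    rcases le_total u u0 with h2 | h2
    · exact han _ _ h2
    · have h3 := han _ _ h2
      have h4 := hmin (U u) (by
        rw [hZ]
        exact Finset.mem_filter.2 ⟨Finset.mem_univ _, ⟨u, rfl⟩, h⟩)
      rw [Finset.eq_of_subset_of_card_le h3 h4]
  obtain ⟨t', ht', hmin'⟩ := Finset.exists_min_image
    ((U u0).filter (fun t => S.pos x t ∧ S.R t τ)) S.rank ⟨t0, Finset.mem_filter.2 ⟨ht0, hc0⟩⟩
  obtain ⟨hm1, hm2, hm3⟩ := Finset.mem_filter.1 ht'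
  refine ⟨t', S.mem_rf.2 ⟨hm3, u0, hm1, ?_⟩, hm2, hsub hm1⟩
  intro s hs hsτ hts
  by_contra hst
  have h5 := S.rankR t' s hts hst
  have h6 := hmin' s (Finset.mem_filter.2 ⟨hs, S.posR x t' s hm2 hts, hsτ⟩)
  omega

end chain

/-- Covering by common terms of many families, outside a small set. -/
lemma chain_cover (U : ℕ → ℝ → Finset T) (hok : ∀ i t, ∀ τ ∈ U i t, S.ok τ)
    (hcl : ∀ i t, S.Closed (U i t)) (han : ∀ i s t, s ≤ t → U i t ⊆ U i s) (m : ℕ) :
    ∃ (Q : Finset T) (L : Finset X), (∀ τ ∈ Q, S.ok τ) ∧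
      (∀ r, (Q.filter (fun τ => S.rank τ ≤ r)).card ≤ (1 + m * ((S.M + 1) * S.B)) ^ r) ∧
      L.card ≤ m * ((1 + m * ((S.M + 1) * S.B)) ^ S.M * ((S.M + 1) * S.B) * S.ρ) ∧
      ∀ x, x ∉ L → ∀ u : ℕ → ℝ, (∀ i < m, ∃ t ∈ U i (u i), S.pos x t) →
        ∃ τ ∈ Q, S.pos x τ ∧ ∀ i < m, τ ∈ U i (u i) := by
  obtain ⟨b, hb⟩ : ∃ b : ℕ, b = (S.M + 1) * S.B := ⟨_, rfl⟩
  rw [← hb]
  induction m with
  | zero =>
    refine ⟨{S.t₀}, ∅, ?_, ?_, ?_, ?_⟩
    · intro τ hτ
      rw [Finset.mem_singleton] at hτ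
      rw [hτ]
      exact S.ok0
    · intro r
      rw [Nat.zero_mul, Nat.add_zero, one_pow]
      refine (Finset.card_filter_le _ _).trans ?_
      rw [Finset.card_singleton]
    · simp
    · intro x _ u _
      exact ⟨S.t₀, Finset.mem_singleton_self _, S.pos0 x,
        fun i hi => absurd hi (Nat.not_lt_zero _)⟩
  | succ m ih =>
    obtain ⟨Q, L, hQ1, hQ2, hL, hcov⟩ := ih
    obtain ⟨Lm, hLm⟩ : ∃ Lm : Finset X, Lm = ((Q ×ˢ S.rf (U m) S.t₀).filter
      (fun q => S.Cross q.1 q.2)).biUnion (fun q =>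
        univ.filter (fun x => S.pos x q.1 ∧ S.pos x q.2)) := ⟨_, rfl⟩
    have hQcard : Q.card ≤ (1 + m * b) ^ S.M := by
      refine le_trans (Finset.card_le_card ?_) (hQ2 S.M)
      intro τ hτ
      exact Finset.mem_filter.2 ⟨hτ, S.rankM τ⟩
    have hfirst : (S.rf (U m) S.t₀).card ≤ b := by
      rw [hb]
      exact S.rf_card (hok m) (hcl m) (han m) S.t₀
    have hLmcard : Lm.card ≤ (1 + m * b) ^ S.M * b * S.ρ := by
      rw [hLm]
      refine (Finset.card_biUnion_le_card_mul _ _ S.ρ ?_).trans ?_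
      · rintro ⟨t1, t2⟩ hq
        obtain ⟨h1, h2⟩ := Finset.mem_filter.1 hq
        obtain ⟨h3, h4⟩ := Finset.mem_product.1 h1
        obtain ⟨_, u, h5, _⟩ := S.mem_rf.1 h4
        exact S.cross t1 t2 (hQ1 _ h3) (hok m u _ h5) h2
      · apply Nat.mul_le_mul_right
        refine (Finset.card_filter_le _ _).trans ?_
        rw [Finset.card_product]
        exact Nat.mul_le_mul hQcard hfirst
    refine ⟨Q ∪ Q.biUnion (fun τ => (S.rf (U m) τ).filter (fun t => S.rank τ < S.rank t)),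
      L ∪ Lm, ?_, ?_, ?_, ?_⟩
    · intro τ hτ
      rcases Finset.mem_union.1 hτ with h | h
      · exact hQ1 τ h
      · obtain ⟨σ, _, hσ⟩ := Finset.mem_biUnion.1 h
        obtain ⟨_, u, hu, _⟩ := S.mem_rf.1 (Finset.mem_filter.1 hσ).1
        exact hok m u τ hu
    · intro r
      rcases r with _ | r
      · rw [pow_zero]
        have h0 := hQ2 0
        rw [pow_zero] at h0
        refine le_trans (Finset.card_le_card ?_) h0
        intro τ hτ
        obtain ⟨h1, h2⟩ := Finset.mem_filter.1 hτ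
        rcases Finset.mem_union.1 h1 with h | h
        · exact Finset.mem_filter.2 ⟨h, h2⟩
        · obtain ⟨σ, _, hσ⟩ := Finset.mem_biUnion.1 h
          have := (Finset.mem_filter.1 hσ).2
          omega
      · have h1 : (Q ∪ Q.biUnion (fun τ => (S.rf (U m) τ).filter
            (fun t => S.rank τ < S.rank t))).filter (fun τ => S.rank τ ≤ r + 1) ⊆
            Q.filter (fun τ => S.rank τ ≤ r + 1) ∪
              (Q.filter (fun τ => S.rank τ ≤ r)).biUnion (fun τ => S.rf (U m) τ) := by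
          intro τ hτ
          obtain ⟨h1, h2⟩ := Finset.mem_filter.1 hτ
          rw [Finset.mem_union]
          rcases Finset.mem_union.1 h1 with h | h
          · exact Or.inl (Finset.mem_filter.2 ⟨h, h2⟩)
          · right
            obtain ⟨σ, hσQ, hσ⟩ := Finset.mem_biUnion.1 h
            obtain ⟨h3, h4⟩ := Finset.mem_filter.1 hσ
            exact Finset.mem_biUnion.2 ⟨σ, Finset.mem_filter.2 ⟨hσQ, by omega⟩, h3⟩
        refine (Finset.card_le_card h1).trans ((Finset.card_union_le _ _).trans ?_)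
        have h2 : ((Q.filter (fun τ => S.rank τ ≤ r)).biUnion (fun τ => S.rf (U m) τ)).card ≤
            (1 + m * b) ^ r * b := by
          refine (Finset.card_biUnion_le_card_mul _ _ b fun τ _ => ?_).trans
            (Nat.mul_le_mul_right _ (hQ2 r))
          rw [hb]
          exact S.rf_card (hok m) (hcl m) (han m) τ
        refine (Nat.add_le_add (hQ2 (r + 1)) h2).trans ?_
        have h3 : (1 + m * b) ^ r ≤ (1 + (m + 1) * b) ^ r :=
          Nat.pow_le_pow_left (by
            rw [add_mul, one_mul]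
            omega) r
        calc (1 + m * b) ^ (r + 1) + (1 + m * b) ^ r * b
            = (1 + m * b) ^ r * (1 + (m + 1) * b) := by ring
          _ ≤ (1 + (m + 1) * b) ^ r * (1 + (m + 1) * b) := Nat.mul_le_mul_right _ h3
          _ = (1 + (m + 1) * b) ^ (r + 1) := by ring
    · refine (Finset.card_union_le _ _).trans ?_
      have h3 : (1 + m * b) ^ S.M ≤ (1 + (m + 1) * b) ^ S.M :=
        Nat.pow_le_pow_left (by
          rw [add_mul, one_mul]
          omega) _
      have h4 : (1 + m * b) ^ S.M * b * S.ρ ≤ (1 + (m + 1) * b) ^ S.M * b * S.ρ :=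
        Nat.mul_le_mul_right _ (Nat.mul_le_mul_right _ h3)
      calc L.card + Lm.card ≤ m * ((1 + m * b) ^ S.M * b * S.ρ) + (1 + m * b) ^ S.M * b * S.ρ :=
            Nat.add_le_add hL hLmcard
        _ ≤ m * ((1 + (m + 1) * b) ^ S.M * b * S.ρ) + (1 + (m + 1) * b) ^ S.M * b * S.ρ :=
            Nat.add_le_add (Nat.mul_le_mul_left _ h4) h4
        _ = (m + 1) * ((1 + (m + 1) * b) ^ S.M * b * S.ρ) := by ring
    · intro x hx u hex
      rw [Finset.mem_union] at hx
      push Not at hx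
      obtain ⟨τ, hτQ, hτp, hτU⟩ := hcov x hx.1 u (fun i hi => hex i (by omega))
      by_cases hin : τ ∈ U m (u m)
      · refine ⟨τ, Finset.mem_union_left _ hτQ, hτp, ?_⟩
        intro i hi
        rcases Nat.lt_succ_iff_lt_or_eq.1 hi with h | rfl
        · exact hτU i h
        · exact hin
      · obtain ⟨t1, ht1, ht1p⟩ := hex m (by omega)
        obtain ⟨t, ht, htp, htU⟩ := S.exists_rf (hok m) (hcl m) (han m)
          ⟨t1, ht1, ht1p, S.R0 t1⟩
        have hnc : ¬ S.Cross τ t := by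
          intro hc
          apply hx.2
          rw [hLm, Finset.mem_biUnion]
          exact ⟨(τ, t), Finset.mem_filter.2 ⟨Finset.mem_product.2 ⟨hτQ, ht⟩, hc⟩,
            Finset.mem_filter.2 ⟨Finset.mem_univ _, hτp, htp⟩⟩
        obtain ⟨c, hc1, hc2, hc3, hc4⟩ := S.join x τ t (hQ1 τ hτQ) (hok m _ t htU) hτp htp hnc
        have hcU : c ∈ U m (u m) := S.closed_up (hcl m _) htU hc1 hc4
        obtain ⟨t', ht', htp', htU'⟩ := S.exists_rf (hok m) (hcl m) (han m) (τ := τ)
          ⟨c, hcU, hc2, hc3⟩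
        have ht'τ := (S.mem_rf.1 ht').1
        have hnτ : ¬ S.R τ t' := fun h => hin (S.closed_up (hcl m _) htU' (hQ1 τ hτQ) h)
        refine ⟨t', Finset.mem_union_right _ (Finset.mem_biUnion.2 ⟨τ, hτQ,
          Finset.mem_filter.2 ⟨ht', S.rankR t' τ ht'τ hnτ⟩⟩), htp', ?_⟩
        intro i hi
        rcases Nat.lt_succ_iff_lt_or_eq.1 hi with h | rfl
        · exact S.closed_up (hcl i _) (hτU i h) (hok m _ t' htU') ht'τ
        · exact htU'

/-- the bound for the number of positive instances lost at a gate -/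
noncomputable def lost (f : ℕ) : ℕ := (2 * f * (S.M + 1) * S.B) ^ (S.M + 1) * S.ρ

lemma exists_lost (f g : ℕ) (hf : 1 ≤ f) (hgf : g ≤ f) (U : Fin g → ℝ → Finset T)
    (hok : ∀ i t, ∀ τ ∈ U i t, S.ok τ) (hcl : ∀ i t, S.Closed (U i t))
    (han : ∀ i s t, s ≤ t → U i t ⊆ U i s) :
    ∃ L : Finset X, L.card ≤ S.lost f ∧
      ∀ x, x ∉ L → ∀ u : Fin g → ℝ, (∀ i, ∃ t ∈ U i (u i), S.pos x t) →
        ∃ τ, S.ok τ ∧ S.pos x τ ∧ ∀ i, τ ∈ U i (u i) := by
  obtain ⟨Q, L, h1, _, h3, h4⟩ := S.chain_cover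
    (fun i => if h : i < g then U ⟨i, h⟩ else fun _ => S.okset) (by
      intro i t τ hτ
      split_ifs at hτ with h
      · exact hok _ t τ hτ
      · exact S.mem_okset.1 hτ) (by
      intro i t
      split_ifs with h
      · exact hcl _ t
      · exact S.closed_okset) (by
      intro i s t hst
      split_ifs with h
      · exact han _ s t hst
      · exact Finset.Subset.refl _) g
  refine ⟨L, ?_, ?_⟩
  · refine h3.trans ?_
    unfold lost
    obtain ⟨b, hb⟩ : ∃ b : ℕ, b = (S.M + 1) * S.B := ⟨_, rfl⟩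
    have hb1 : 1 ≤ b := by
      rw [hb]
      exact Nat.mul_pos (Nat.succ_pos _) S.hB
    have hfb : 1 ≤ f * b := Nat.mul_pos hf hb1
    have e1 : 2 * f * (S.M + 1) * S.B = 2 * (f * b) := by
      rw [hb]
      ring
    rw [e1, ← hb]
    have e2 : 1 + g * b ≤ 2 * (f * b) := by
      have := Nat.mul_le_mul_right b hgf
      omega
    calc g * ((1 + g * b) ^ S.M * b * S.ρ) = (g * b) * (1 + g * b) ^ S.M * S.ρ := by ring
      _ ≤ (2 * (f * b)) * (2 * (f * b)) ^ S.M * S.ρ :=
          Nat.mul_le_mul_right _ (Nat.mul_le_mul (by omega) (Nat.pow_le_pow_left e2 _))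
      _ = (2 * (f * b)) ^ (S.M + 1) * S.ρ := by ring
  · intro x hx u hex
    obtain ⟨τ, h5, h6, h7⟩ := h4 x hx (fun i => if h : i < g then u ⟨i, h⟩ else 0) (by
      intro i hi
      simp only [dif_pos hi]
      exact hex ⟨i, hi⟩)
    refine ⟨τ, h1 τ h5, h6, ?_⟩
    intro i
    have := h7 i i.2
    simpa only [dif_pos i.2, Fin.eta] using this

/-! ### Approximation of functions -/

/-- The chain `U` approximates the function, up to the positive instances in `L` and the negative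
instances in `G`. -/
structure RA (fp : X → ℝ) (fn : W → ℝ) (U : ℝ → Finset T) (L : Finset X) (G : Finset W) :
    Prop where
  ok : ∀ t, ∀ τ ∈ U t, S.ok τ
  closed : ∀ t, S.Closed (U t)
  anti : ∀ s t, s ≤ t → U t ⊆ U s
  pos : ∀ x, x ∉ L → ∀ t, t ≤ fp x → ∃ τ ∈ U t, S.pos x τ
  neg : ∀ w, w ∉ G → ∀ t, (∃ τ ∈ U t, S.neg w τ) → t ≤ fn w

variable {S}

lemma RA.weaken {fp : X → ℝ} {fn : W → ℝ} {U : ℝ → Finset T} {L L' : Finset X}
    {G G' : Finset W} (h : S.RA fp fn U L G) (hL : L ⊆ L') (hG : G ⊆ G') :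
    S.RA fp fn U L' G' :=
  ⟨h.ok, h.closed, h.anti, fun x hx => h.pos x fun hx' => hx (hL hx'),
    fun w hw => h.neg w fun hw' => hw (hG hw')⟩

variable (S)

/-- the bound for the number of negative instances gained by closing a chain -/
noncomputable def ce : ℕ := (Fintype.card T + 1) * (Fintype.card T * S.Δ)

lemma base_RA (A : ℝ → Finset T) (hA : ∀ t, ∀ τ ∈ A t, S.ok τ)
    (han : ∀ s t, s ≤ t → A t ⊆ A s) (fp : X → ℝ) (fn : W → ℝ)
    (hpos : ∀ x t, t ≤ fp x → ∃ τ ∈ A t, S.pos x τ)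
    (hneg : ∀ w t, (∃ τ ∈ A t, S.neg w τ) → t ≤ fn w) :
    ∃ (U : ℝ → Finset T) (G : Finset W), G.card ≤ S.ce ∧ S.RA fp fn U ∅ G := by
  refine ⟨fun t => S.clo (A t), S.cgap A, S.chain_err A han, ?_, ?_, ?_, ?_, ?_⟩
  · intro t
    exact S.clo_ok (hA t)
  · intro t
    exact S.clo_closed
  · intro s t hst
    exact S.clo_mono (han s t hst)
  · intro x _ t ht
    obtain ⟨τ, h1, h2⟩ := hpos x t ht
    exact ⟨τ, S.subset_clo h1, h2⟩
  · intro w hw t hex
    apply hneg w t
    by_contra hn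
    push Not at hn
    exact hw (S.mem_cgap.2 ⟨t, S.mem_gap.2 ⟨hex, hn⟩⟩)

/-- the base families of a gate -/
noncomputable def gateBase {g : ℕ} (op : (Fin g → ℝ) → ℝ) (U : Fin g → ℝ → Finset T) (t : ℝ) :
    Finset T := S.okset.filter (fun τ => ∃ u : Fin g → ℝ, t ≤ op u ∧ ∀ i, τ ∈ U i (u i))

lemma gate_RA (f g : ℕ) (hf : 1 ≤ f) (hgf : g ≤ f) (op : (Fin g → ℝ) → ℝ)
    (hop : ∀ u v : Fin g → ℝ, (∀ i, u i ≤ v i) → op u ≤ op v)
    {fp : Fin g → X → ℝ} {fn : Fin g → W → ℝ} {U : Fin g → ℝ → Finset T} {L : Finset X}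
    {G : Finset W} (hA : ∀ i, S.RA (fp i) (fn i) (U i) L G) :
    ∃ (U' : ℝ → Finset T) (L0 : Finset X) (G0 : Finset W), L0.card ≤ S.lost f ∧ G0.card ≤ S.ce ∧
      S.RA (fun x => op (fun i => fp i x)) (fun w => op (fun i => fn i w)) U' (L ∪ L0)
        (G ∪ G0) := by
  obtain ⟨L0, hL0, hcov⟩ := S.exists_lost f g hf hgf U (fun i => (hA i).ok)
    (fun i => (hA i).closed) (fun i => (hA i).anti)
  have hb1 : ∀ t, ∀ τ ∈ S.gateBase op U t, S.ok τ := fun t τ hτ =>
    S.mem_okset.1 (Finset.mem_filter.1 hτ).1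
  have hb2 : ∀ s t, s ≤ t → S.gateBase op U t ⊆ S.gateBase op U s := by
    intro s t hst τ hτ
    obtain ⟨h1, u, h2, h3⟩ := Finset.mem_filter.1 hτ
    exact Finset.mem_filter.2 ⟨h1, u, hst.trans h2, h3⟩
  refine ⟨fun t => S.clo (S.gateBase op U t), L0, S.cgap (S.gateBase op U), hL0,
    S.chain_err _ hb2, ?_, ?_, ?_, ?_, ?_⟩
  · intro t
    exact S.clo_ok (hb1 t)
  · intro t
    exact S.clo_closed
  · intro s t hst
    exact S.clo_mono (hb2 s t hst)
  · intro x hx t ht
    rw [Finset.mem_union] at hx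
    push Not at hx
    obtain ⟨τ, h1, h2, h3⟩ := hcov x hx.2 (fun i => fp i x)
      (fun i => (hA i).pos x hx.1 (fp i x) le_rfl)
    exact ⟨τ, S.subset_clo (Finset.mem_filter.2 ⟨S.mem_okset.2 h1, _, ht, h3⟩), h2⟩
  · intro w hw t hex
    rw [Finset.mem_union] at hw
    push Not at hw
    have hex2 : ∃ τ ∈ S.gateBase op U t, S.neg w τ := by
      by_contra hn
      push Not at hn
      exact hw.2 (S.mem_cgap.2 ⟨t, S.mem_gap.2 ⟨hex, hn⟩⟩)
    obtain ⟨τ, h1, h2⟩ := hex2
    obtain ⟨_, u, h3, h4⟩ := Finset.mem_filter.1 h1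
    exact h3.trans (hop _ _ fun i => (hA i).neg w hw.1 (u i) ⟨τ, h4 i, h2⟩)

variable {ι : Type}

lemma wire_RA (C : FCircuit ι) (xpos : X → ι → ℝ) (xneg : W → ι → ℝ) (base : ι → ℝ → Finset T)
    (hbase : ∀ i t, ∀ τ ∈ base i t, S.ok τ) (hban : ∀ i s t, s ≤ t → base i t ⊆ base i s)
    (hpos : ∀ i x t, t ≤ xpos x i → ∃ τ ∈ base i t, S.pos x τ)
    (hneg : ∀ i w t, (∃ τ ∈ base i t, S.neg w τ) → t ≤ xneg w i)
    (m : ℕ) (U : ℕ → ℝ → Finset T) (L : Finset X) (G : Finset W)
    (hU : ∀ j < m, S.RA (fun x => C.val (xpos x) j) (fun w => C.val (xneg w) j) (U j) L G)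
    (e : FWire ι) :
    ∃ (Uw : ℝ → Finset T) (G0 : Finset W), G0.card ≤ S.ce ∧
      S.RA (fun x => e.eval (xpos x) (fun j => if j < m then C.val (xpos x) j else 0))
        (fun w => e.eval (xneg w) (fun j => if j < m then C.val (xneg w) j else 0))
        Uw L (G ∪ G0) := by
  cases e with
  | input i =>
    obtain ⟨Uw, G0, hG0, hA⟩ := S.base_RA (base i) (hbase i) (hban i) (fun x => xpos x i)
      (fun w => xneg w i) (hpos i) (hneg i)
    exact ⟨Uw, G0, hG0, hA.weaken (Finset.empty_subset _) Finset.subset_union_right⟩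
  | gate j =>
    by_cases hj : j < m
    · refine ⟨U j, ∅, by simp, ?_⟩
      have h2 := (hU j hj).weaken (Finset.Subset.refl L) (G' := G ∪ ∅) Finset.subset_union_left
      unfold FWire.eval
      simp only [if_pos hj]
      exact h2
    · obtain ⟨Uw, G0, hG0, hA⟩ := S.base_RA (fun t : ℝ => if t ≤ 0 then {S.t₀} else ∅) (by
          intro t s hs
          split_ifs at hs
          · rw [Finset.mem_singleton] at hs
            rw [hs]
            exact S.ok0
          · exact absurd hs (Finset.notMem_empty _)) (by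
          intro s t hst
          split_ifs with g1 g2
          · exact Finset.Subset.refl _
          · exact absurd (le_trans hst g1) g2
          · exact Finset.empty_subset _
          · exact Finset.Subset.refl _)
        (fun _ => 0) (fun _ => 0) (by
          intro x t ht
          rw [if_pos ht]
          exact ⟨_, Finset.mem_singleton_self _, S.pos0 x⟩) (by
          intro w t hex
          by_contra hcon
          rw [if_neg hcon] at hex
          obtain ⟨τ, hτ, _⟩ := hex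
          exact absurd hτ (Finset.notMem_empty _))
      refine ⟨Uw, G0, hG0, ?_⟩
      have h2 := hA.weaken (L' := L) (G' := G ∪ G0) (Finset.empty_subset _)
        Finset.subset_union_right
      unfold FWire.eval
      simp only [if_neg hj]
      exact h2

lemma gates_RA (f : ℕ) (hf : 1 ≤ f) (C : FCircuit ι) (hC : C.FanInLe f) (xpos : X → ι → ℝ)
    (xneg : W → ι → ℝ) (base : ι → ℝ → Finset T)
    (hbase : ∀ i t, ∀ τ ∈ base i t, S.ok τ) (hban : ∀ i s t, s ≤ t → base i t ⊆ base i s)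
    (hpos : ∀ i x t, t ≤ xpos x i → ∃ τ ∈ base i t, S.pos x τ)
    (hneg : ∀ i w t, (∃ τ ∈ base i t, S.neg w τ) → t ≤ xneg w i) (m : ℕ) (hm : m ≤ C.size) :
    ∃ (U : ℕ → ℝ → Finset T) (L : Finset X) (G : Finset W), L.card ≤ m * S.lost f ∧
      G.card ≤ m * ((f + 1) * S.ce) ∧
      ∀ j < m, S.RA (fun x => C.val (xpos x) j) (fun w => C.val (xneg w) j) (U j) L G := by
  induction m with
  | zero =>
    refine ⟨fun _ _ => ∅, ∅, ∅, by simp, by simp, ?_⟩
    intro j hj
    exact absurd hj (Nat.not_lt_zero _)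
  | succ m ih =>
    obtain ⟨U, L, G, hL, hG, hU⟩ := ih (by omega)
    have hval : ∀ z : ι → ℝ, C.val z m
        = (C.gate m).op (fun l => ((C.gate m).wire l).eval z
          (fun j => if j < m then C.val z j else 0)) := by
      intro z
      rw [FCircuit.val]
      congr 1
    have hfm := hC m (by omega)
    have hw := fun l : Fin (C.gate m).fanIn => S.wire_RA C xpos xneg base hbase hban hpos hneg m
      U L G hU ((C.gate m).wire l)
    choose Uw Gw hGw hAw using hw
    have hAw' : ∀ l, S.RA (fun x => ((C.gate m).wire l).eval (xpos x)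
          (fun j => if j < m then C.val (xpos x) j else 0))
        (fun w => ((C.gate m).wire l).eval (xneg w)
          (fun j => if j < m then C.val (xneg w) j else 0))
        (Uw l) L (G ∪ (univ : Finset (Fin (C.gate m).fanIn)).biUnion Gw) := by
      intro l
      apply (hAw l).weaken (Finset.Subset.refl L)
      apply Finset.union_subset_union (Finset.Subset.refl _)
      exact Finset.subset_biUnion_of_mem Gw (Finset.mem_univ l)
    obtain ⟨Um, L0, G0, hL0, hG0, hA⟩ := S.gate_RA f (C.gate m).fanIn hf hfm (C.gate m).op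
      (C.gate m).mono hAw'
    refine ⟨Function.update U m Um, L ∪ L0,
      (G ∪ (univ : Finset (Fin (C.gate m).fanIn)).biUnion Gw) ∪ G0, ?_, ?_, ?_⟩
    · refine (Finset.card_union_le _ _).trans ?_
      rw [add_mul, one_mul]
      exact Nat.add_le_add hL hL0
    · have e1 : ((univ : Finset (Fin (C.gate m).fanIn)).biUnion Gw).card ≤ f * S.ce := by
        refine (Finset.card_biUnion_le_card_mul _ _ S.ce fun l _ => hGw l).trans ?_
        rw [Finset.card_univ, Fintype.card_fin]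
        exact Nat.mul_le_mul_right _ hfm
      refine (Finset.card_union_le _ _).trans ((Nat.add_le_add
        ((Finset.card_union_le _ _).trans (Nat.add_le_add hG e1)) hG0).trans (le_of_eq ?_))
      ring
    · intro j hj
      rcases Nat.lt_succ_iff_lt_or_eq.1 hj with h | rfl
      · rw [Function.update_of_ne (Nat.ne_of_lt h)]
        exact (hU j h).weaken Finset.subset_union_left
          (Finset.subset_union_left.trans Finset.subset_union_left)
      · rw [Function.update_self]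
        simp only [hval]
        exact hA

/-- **The approximation theorem.** -/
theorem main (f : ℕ) (hf : 1 ≤ f) (C : FCircuit ι) (hC : C.FanInLe f) (xpos : X → ι → ℝ)
    (xneg : W → ι → ℝ) (base : ι → ℝ → Finset T)
    (hbase : ∀ i t, ∀ τ ∈ base i t, S.ok τ) (hban : ∀ i s t, s ≤ t → base i t ⊆ base i s)
    (hpos : ∀ i x t, t ≤ xpos x i → ∃ τ ∈ base i t, S.pos x τ)
    (hneg : ∀ i w t, (∃ τ ∈ base i t, S.neg w τ) → t ≤ xneg w i) :
    ∃ L : Finset X, L.card ≤ C.size * S.lost f ∧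
      ∀ x, x ∉ L → ∃ τ, S.ok τ ∧ S.pos x τ ∧
        (univ.filter (fun w => S.neg w τ ∧ C.eval (xneg w) < C.eval (xpos x))).card
          ≤ (C.size + 1) * ((f + 1) * S.ce) := by
  obtain ⟨U, L, G, hL, hG, hU⟩ := S.gates_RA f hf C hC xpos xneg base hbase hban hpos hneg
    C.size le_rfl
  obtain ⟨Uo, Go, hGo, hA⟩ := S.wire_RA C xpos xneg base hbase hban hpos hneg C.size U L G hU C.out
  refine ⟨L, hL, ?_⟩
  intro x hx
  obtain ⟨τ, hτ, hτp⟩ := hA.pos x hx (C.eval (xpos x)) le_rfl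
  refine ⟨τ, hA.ok _ τ hτ, hτp, ?_⟩
  have h1 : univ.filter (fun w => S.neg w τ ∧ C.eval (xneg w) < C.eval (xpos x)) ⊆ G ∪ Go := by
    intro w hw
    obtain ⟨_, h2, h3⟩ := Finset.mem_filter.1 hw
    by_contra hn
    exact absurd (hA.neg w hn _ ⟨τ, hτ, h2⟩) (not_le.2 h3)
  refine (Finset.card_le_card h1).trans ((Finset.card_union_le _ _).trans ?_)
  calc G.card + Go.card ≤ C.size * ((f + 1) * S.ce) + S.ce := Nat.add_le_add hG hGo
    _ ≤ C.size * ((f + 1) * S.ce) + (f + 1) * S.ce :=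
        Nat.add_le_add_left (Nat.le_mul_of_pos_left _ (Nat.succ_pos _)) _
    _ = (C.size + 1) * ((f + 1) * S.ce) := by ring

end Sys

/-- (P5), with the additional hypothesis that `pos x` is preserved when a term is weakened -/
theorem approx (T X W ι : Type) [Fintype T] [Fintype X] [Fintype W]
    (ok : T → Prop) (R : T → T → Prop) (rank : T → ℕ) (pos : X → T → Prop) (neg : W → T → Prop)
    (Cross : T → T → Prop) (t₀ : T) (M B ρ Δ f : ℕ) (hf : 1 ≤ f) (hB : 1 ≤ B)
    (refl : ∀ a, R a a) (trans : ∀ a b c, R a b → R b c → R a c)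
    (negR : ∀ w a b, neg w a → R a b → neg w b)
    (posR : ∀ x a b, pos x a → R a b → pos x b)
    (ok0 : ok t₀) (pos0 : ∀ x, pos x t₀) (neg0 : ∀ w, neg w t₀) (R0 : ∀ t, R t t₀)
    (rankM : ∀ t, rank t ≤ M) (rankR : ∀ a b, R a b → ¬ R b a → rank b < rank a)
    (okR : ∀ a b, ok a → R a b → ok b)
    (join : ∀ x a b, ok a → ok b → pos x a → pos x b → ¬ Cross a b →
      ∃ c, ok c ∧ pos x c ∧ R c a ∧ R c b)
    (cross : ∀ a b, ok a → ok b → Cross a b →
      (univ.filter (fun x => pos x a ∧ pos x b)).card ≤ ρ)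
    (pluck : ∀ (S : Finset T) (τ : T) (r : ℕ), (∀ t ∈ S, ok t ∧ R t τ ∧ rank t = r) →
      B < S.card → ∃ s, ∃ L ⊆ S, L.Nonempty ∧ R s τ ∧ (∀ t ∈ L, R t s ∧ ¬ R s t) ∧
        (univ.filter (fun w => neg w s ∧ ∀ t ∈ L, ¬ neg w t)).card ≤ Δ)
    (C : FCircuit ι) (hC : C.FanInLe f) (xpos : X → ι → ℝ) (xneg : W → ι → ℝ)
    (base : ι → ℝ → Finset T) (hbase : ∀ i t, ∀ τ ∈ base i t, ok τ)
    (hban : ∀ i s t, s ≤ t → base i t ⊆ base i s)
    (hpos : ∀ i x t, t ≤ xpos x i → ∃ τ ∈ base i t, pos x τ)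
    (hneg : ∀ i w t, (∃ τ ∈ base i t, neg w τ) → t ≤ xneg w i) :
    ∃ L : Finset X, L.card ≤ C.size * ((2 * f * (M + 1) * B) ^ (M + 1) * ρ) ∧
      ∀ x, x ∉ L → ∃ τ, ok τ ∧ pos x τ ∧
        (univ.filter (fun w => neg w τ ∧ C.eval (xneg w) < C.eval (xpos x))).card
          ≤ (C.size + 1) * ((f + 1) * ((Fintype.card T + 1) * (Fintype.card T * Δ))) :=
  Sys.main (T := T) (X := X) (W := W) (Sys.mk ok R rank pos neg Cross t₀ M B ρ Δ hB refl trans negR posR
      ok0 pos0 neg0 R0 rankM rankR okR join cross pluck)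
    f hf C hC xpos xneg base hbase hban hpos hneg

end Pool.Agent.T9h18.SC
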