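import Pool.Agent.T9h20.SC.Spec

/-!
# Few permutations are compatible with a balanced labeling (P4)
-/

set_option autoImplicit false

namespace Pool.Agent.T9h18.SC

open Finset

lemma fact_mul_le (a b : ℕ) : a.factorial * b.factorial ≤ (a + b).factorial :=
  Nat.le_of_dvd (Nat.factorial_pos _) (Nat.factorial_mul_factorial_dvd_factorial_add a b)

lemma fact_balance (h : ℕ) : ∀ (j a b d : ℕ), h = a + j → b ≤ a → a + b = h + d →
    a.factorial * b.factorial ≤ h.factorial * d.factorial := by
  intro j
  induction j with
  | zero =>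
    intro a b d h1 _ h3
    have h4 : h = a := by omega
    have h5 : b = d := by omega
    rw [h4, h5]
  | succ j ih =>
    intro a b d h1 h2 h3
    obtain ⟨b', rfl⟩ : ∃ b', b = b' + 1 := ⟨b - 1, by omega⟩
    have h6 := ih (a + 1) b' d (by omega) (by omega) (by omega)
    refine le_trans ?_ h6
    rw [Nat.factorial_succ, Nat.factorial_succ]
    calc a.factorial * ((b' + 1) * b'.factorial) = (b' + 1) * (a.factorial * b'.factorial) := by ring
      _ ≤ (a + 1) * (a.factorial * b'.factorial) := Nat.mul_le_mul_right _ (by omega)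
      _ = (a + 1) * a.factorial * b'.factorial := by ring

lemma fact_balance' {h a b d : ℕ} (ha : a ≤ h) (hb : b ≤ h) (hs : a + b = h + d) :
    a.factorial * b.factorial ≤ h.factorial * d.factorial := by
  rcases le_total b a with g | g
  · exact fact_balance h (h - a) a b d (by omega) g hs
  · rw [mul_comm]
    exact fact_balance h (h - b) b a d (by omega) g (by omega)

/-- the largest product of factorials of numbers at most `h` with the sum `N` (for `N ≤ 2 h`) -/
def fh (h N : ℕ) : ℕ := if N ≤ h then N.factorial else h.factorial * (N - h).factorial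

lemma fh_add {h a N : ℕ} (ha : a ≤ h) : a.factorial * fh h N ≤ fh h (a + N) := by
  unfold fh
  by_cases h1 : a + N ≤ h
  · rw [if_pos (by omega), if_pos h1]
    exact fact_mul_le a N
  · rw [if_neg h1]
    by_cases h2 : N ≤ h
    · rw [if_pos h2]
      exact fact_balance' ha h2 (by omega)
    · rw [if_neg h2]
      calc a.factorial * (h.factorial * (N - h).factorial)
          = h.factorial * (a.factorial * (N - h).factorial) := by ring
        _ ≤ h.factorial * (a + (N - h)).factorial := Nat.mul_le_mul_left _ (fact_mul_le _ _)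
        _ = h.factorial * (a + N - h).factorial := by
          congr 2
          omega

lemma prod_fact_le {Γ : Type} [DecidableEq Γ] (h : ℕ) (s : Finset Γ) (ν : Γ → ℕ)
    (hν : ∀ c ∈ s, ν c ≤ h) : ∏ c ∈ s, (ν c).factorial ≤ fh h (∑ c ∈ s, ν c) := by
  induction s using Finset.induction_on with
  | empty => simp [fh]
  | insert a s ha ih =>
    rw [Finset.prod_insert ha, Finset.sum_insert ha]
    have h1 := ih fun c hc => hν c (Finset.mem_insert_of_mem hc)
    exact (Nat.mul_le_mul_left _ h1).trans (fh_add (hν a (Finset.mem_insert_self _ _)))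

lemma half_fact (n : ℕ) : fh (n / 2) n * 2 ^ n ≤ (n + 1) * n.factorial := by
  have h1 : fh (n / 2) n = (n / 2).factorial * (n - n / 2).factorial := by
    unfold fh
    split_ifs with h
    · have : n = 0 := by omega
      subst this
      rfl
    · rfl
  have h2 : 2 ^ n ≤ (n + 1) * n.choose (n / 2) := by
    rw [← Nat.sum_range_choose n]
    refine (Finset.sum_le_card_nsmul _ _ (n.choose (n / 2)) fun i _ => Nat.choose_le_middle i n).trans ?_
    rw [Finset.card_range, smul_eq_mul]
  rw [h1]
  have h3 := Nat.choose_mul_factorial_mul_factorial (Nat.div_le_self n 2)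
  calc (n / 2).factorial * (n - n / 2).factorial * 2 ^ n
      ≤ (n / 2).factorial * (n - n / 2).factorial * ((n + 1) * n.choose (n / 2)) :=
        Nat.mul_le_mul_left _ h2
    _ = (n + 1) * (n.choose (n / 2) * (n / 2).factorial * (n - n / 2).factorial) := by ring
    _ = (n + 1) * n.factorial := by rw [h3]

/-- the permutations which transform `y` into `g` -/
lemma card_trans {n : ℕ} {Γ : Type} [Fintype Γ] [DecidableEq Γ] (y g : Fin n → Γ) :
    (univ.filter (fun π : Equiv.Perm (Fin n) => y ∘ π = g)).card ≤
      ∏ c, (univ.filter (fun i => g i = c)).card.factorial := by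
  classical
  by_cases hex : ∃ π₀ : Equiv.Perm (Fin n), y ∘ π₀ = g
  · obtain ⟨π₀, h0⟩ := hex
    have h1 := DomMulAct.stabilizer_card g
    have h2 : (univ.filter (fun π : Equiv.Perm (Fin n) => y ∘ π = g)).card ≤
        (univ.filter (fun σ : Equiv.Perm (Fin n) => g ∘ σ = g)).card := by
      refine Finset.card_le_card_of_injOn (fun π => π₀⁻¹ * π) ?_ ?_
      · intro π hπ
        have hπ' : y ∘ π = g := (Finset.mem_filter.1 hπ).2
        refine Finset.mem_filter.2 ⟨Finset.mem_univ _, ?_⟩
        funext i
        have h3 : g (π₀⁻¹ (π i)) = y (π₀ (π₀⁻¹ (π i))) := by rw [← h0]; rfl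
        have h5 : π₀ (π₀⁻¹ (π i)) = π i := π₀.apply_symm_apply (π i)
        show g (π₀⁻¹ (π i)) = g i
        rw [h3, h5]
        exact congrFun hπ' i
      · intro a _ b _ hab
        exact mul_left_cancel hab
    refine h2.trans (le_of_eq ?_)
    have h4 : (univ.filter (fun σ : Equiv.Perm (Fin n) => g ∘ σ = g)).card =
        Fintype.card {σ : Equiv.Perm (Fin n) // g ∘ σ = g} := by
      rw [Fintype.card_subtype]
    rw [h4, h1]
    refine Finset.prod_congr rfl fun c _ => ?_
    rw [Fintype.card_subtype]
  · rw [Finset.filter_false_of_mem]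
    · simp
    · intro π _ h
      exact hex ⟨π, h⟩

theorem stCross : Pool.Agent.T9h20.SC.StCross := by
  intro n k Γ _ _ _ x g hg
  classical
  have h1 : (univ.filter (fun π : Equiv.Perm (Fin n) => ∀ i j, x (π i) = x (π j) → g i = g j)) ⊆
      (univ : Finset (Fin k → Γ)).biUnion (fun h =>
        univ.filter (fun π : Equiv.Perm (Fin n) => (h ∘ x) ∘ π = g)) := by
    intro π hπ
    have hπ' := (Finset.mem_filter.1 hπ).2
    rw [Finset.mem_biUnion]
    refine ⟨fun c => if hc : ∃ i, x (π i) = c then g hc.choose else Classical.arbitrary Γ,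
      Finset.mem_univ _, Finset.mem_filter.2 ⟨Finset.mem_univ _, ?_⟩⟩
    funext i
    have hc : ∃ j, x (π j) = x (π i) := ⟨i, rfl⟩
    show (if hc : ∃ j, x (π j) = x (π i) then g hc.choose else Classical.arbitrary Γ) = g i
    rw [dif_pos hc]
    exact hπ' _ _ hc.choose_spec
  have h2 : ∏ c, (univ.filter (fun i => g i = c)).card.factorial ≤ fh (n / 2) n := by
    have h3 := prod_fact_le (n / 2) (univ : Finset Γ)
      (fun c => (univ.filter (fun i => g i = c)).card) (fun c _ => by
        have := hg c
        omega)
    have h4 : ∑ c, (univ.filter (fun i => g i = c)).card = n := by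
      have := Finset.card_eq_sum_card_fiberwise (f := g) (s := (univ : Finset (Fin n)))
        (t := (univ : Finset Γ)) (fun i _ => Finset.mem_univ _)
      rw [← this, Finset.card_univ, Fintype.card_fin]
    rwa [h4] at h3
  have h5 : (univ.filter (fun π : Equiv.Perm (Fin n) =>
      ∀ i j, x (π i) = x (π j) → g i = g j)).card ≤ Fintype.card Γ ^ k * fh (n / 2) n := by
    refine (Finset.card_le_card h1).trans ((Finset.card_biUnion_le_card_mul _ _ (fh (n / 2) n)
      fun h _ => (card_trans (h ∘ x) g).trans h2).trans (le_of_eq ?_))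
    rw [Finset.card_univ, Fintype.card_fun, Fintype.card_fin]
  calc _ ≤ (Fintype.card Γ ^ k * fh (n / 2) n) * 2 ^ n := Nat.mul_le_mul_right _ h5
    _ = Fintype.card Γ ^ k * (fh (n / 2) n * 2 ^ n) := by ring
    _ ≤ _ := Nat.mul_le_mul_left _ (half_fact n)

end Pool.Agent.T9h18.SC
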